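import Mathlib

/-!
# Regular models over a ring: adjoining elements to subalgebras
-/

set_option autoImplicit false
set_option linter.unusedVariables false

universe u v

open Polynomial

namespace Pool.Agent.N98.RV

section adj

variable {k K : Type u} [CommRing k] [Field K] [Algebra k K]

/-- The evaluation of polynomials with coefficients in a subalgebra. -/
noncomputable def evA (A : Subalgebra k K) (v : K) : (A)[X] →ₐ[k] K :=
  (Polynomial.aeval v : (A)[X] →ₐ[A] K).restrictScalars k

lemma evA_C (A : Subalgebra k K) (v : K) (a : A) : evA A v (C a) = a := by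
  change Polynomial.aeval v (C a) = _
  rw [Polynomial.aeval_C]
  rfl

lemma evA_X (A : Subalgebra k K) (v : K) : evA A v X = v := by
  change Polynomial.aeval v X = _
  rw [Polynomial.aeval_X]

/-- The subalgebra `A[v]`. -/
noncomputable def adj (A : Subalgebra k K) (v : K) : Subalgebra k K := (evA A v).range

lemma le_adj (A : Subalgebra k K) (v : K) : A ≤ adj A v := fun a ha =>
  ⟨C ⟨a, ha⟩, evA_C A v ⟨a, ha⟩⟩

lemma self_mem_adj (A : Subalgebra k K) (v : K) : v ∈ adj A v := ⟨X, evA_X A v⟩

lemma adj_induction (A : Subalgebra k K) (v : K) {p : K → Prop} (h0 : ∀ a ∈ A, p a)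
    (hadd : ∀ a b, p a → p b → p (a + b)) (hmul : ∀ a, p a → p (a * v)) :
    ∀ a ∈ adj A v, p a := by
  rintro _ ⟨P, rfl⟩
  have key : ∀ (n : ℕ) (a : A), p ((a : K) * v ^ n) := by
    intro n a
    induction n with
    | zero => rw [pow_zero, mul_one]; exact h0 _ a.2
    | succ n ih => rw [pow_succ, ← mul_assoc]; exact hmul _ ih
  change p (evA A v P)
  induction P using Polynomial.induction_on' with
  | add P Q hP hQ => rw [map_add]; exact hadd _ _ hP hQ
  | monomial n a =>
    rw [← Polynomial.C_mul_X_pow_eq_monomial, map_mul, map_pow, evA_C, evA_X]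
    exact key n a

lemma adj_le {A B : Subalgebra k K} {v : K} (hA : A ≤ B) (hv : v ∈ B) : adj A v ≤ B :=
  adj_induction A v (fun a ha => hA ha) (fun _ _ ha hb => B.add_mem ha hb)
    (fun _ ha => B.mul_mem ha hv)

/-- The surjection from the polynomials. -/
noncomputable def evA' (A : Subalgebra k K) (v : K) : (A)[X] →ₐ[k] adj A v :=
  (evA A v).rangeRestrict

lemma evA'_surj (A : Subalgebra k K) (v : K) : Function.Surjective (evA' A v) :=
  AlgHom.rangeRestrict_surjective _

lemma mem_adj_inv {A : Subalgebra k K} {h : K} (hh : h ∈ A) (h0 : h ≠ 0) {f : K} :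
    f ∈ adj A h⁻¹ ↔ ∃ n : ℕ, f * h ^ n ∈ A := by
  constructor
  · intro hf
    refine adj_induction A h⁻¹ (p := fun f => ∃ n : ℕ, f * h ^ n ∈ A) ?_ ?_ ?_ f hf
    · intro a ha
      exact ⟨0, by simpa using ha⟩
    · rintro a b ⟨n, hn⟩ ⟨m, hm⟩
      refine ⟨n + m, ?_⟩
      have : (a + b) * h ^ (n + m) = a * h ^ n * h ^ m + b * h ^ m * h ^ n := by ring
      rw [this]
      exact A.add_mem (A.mul_mem hn (A.pow_mem hh m)) (A.mul_mem hm (A.pow_mem hh n))
    · rintro a ⟨n, hn⟩
      refine ⟨n + 1, ?_⟩
      have : a * h⁻¹ * h ^ (n + 1) = a * h ^ n := by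
        rw [pow_succ']
        field_simp
      rw [this]
      exact hn
  · rintro ⟨n, hn⟩
    have : f = f * h ^ n * h⁻¹ ^ n := by
      rw [mul_assoc, ← mul_pow, mul_inv_cancel₀ h0, one_pow, mul_one]
    rw [this]
    exact (adj A h⁻¹).mul_mem (le_adj _ _ hn) ((adj A h⁻¹).pow_mem (self_mem_adj _ _) n)

lemma ft_adj {A : Subalgebra k K} (h : Algebra.FiniteType k A) (v : K) :
    Algebra.FiniteType k (adj A v) := by
  have h1 : Algebra.FiniteType k (A)[X] := inferInstance
  exact h1.of_surjective (evA' A v) (evA'_surj A v)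

/-- The underlying ring of `A[v]`. -/
lemma adj_toSubring (A : Subalgebra k K) (v : K) :
    (adj A v).toSubring = Subring.closure (insert v (A.toSubring : Set K)) := by
  apply le_antisymm
  · intro a ha
    refine adj_induction A v (p := fun a => a ∈ Subring.closure (insert v (A.toSubring : Set K)))
      ?_ ?_ ?_ a ha
    · intro a ha
      exact Subring.subset_closure (Set.mem_insert_of_mem _ ha)
    · intro a b ha hb
      exact Subring.add_mem _ ha hb
    · intro a ha
      exact Subring.mul_mem _ ha (Subring.subset_closure (Set.mem_insert _ _))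
  · rw [Subring.closure_le]
    rintro a (rfl | ha)
    · exact self_mem_adj A _
    · exact le_adj A v ha

end adj

end Pool.Agent.N98.RV
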