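import Pool.Agent.H59.L.T374d34.N98.RV.Reg

/-!
# Regular rings with a divisor: adding elements, and products
-/

set_option autoImplicit false
set_option linter.unusedVariables false
set_option linter.unusedSectionVars false

universe u v

namespace Pool.Agent.N98.RV

open IsLocalRing Polynomial Pool.Agent.W418.LU2

variable {F : Type u} [Field F]

section trans

variable {A : Subring F} {I : Type}

/-- Adjoining a transcendental element. -/
theorem RegC.trans {L : Type u} [Field L] [Algebra L F] {x : I → F} (h : RegC A x)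
    (hAL : ∀ a ∈ A, ∃ l : L, algebraMap L F l = a) {z : F} (hz : Transcendental L z) :
    RegC (Subring.closure (insert z (A : Set F))) (Sum.elim x (fun _ : Unit => z)) := by
  classical
  have hz0 : z ≠ 0 := by
    rintro rfl
    exact hz isAlgebraic_zero
  have hne : ∀ o, Sum.elim x (fun _ : Unit => z) o ≠ 0 := by
    rintro (l | l)
    · exact h.ne l
    · exact hz0
  have hmem : ∀ o, Sum.elim x (fun _ : Unit => z) o ∈
      Subring.closure (insert z (A : Set F)) := by
    rintro (l | l)
    · exact le_closure (h.mem l)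
    · exact self_mem_closure
  refine ⟨hne, hmem, fun W hW hBW ι _ f hf => ?_⟩
  have hAW : A ≤ W := le_closure.trans hBW
  let κ := {a : ι // ∃ i, f a = Sum.inl i}
  choose e he using fun a : κ => a.2
  have h1 := h.reg W hW hAW κ e (by
    intro a b hab
    apply Subtype.ext
    apply hf
    rw [he, he, hab])
  have htr : ∀ g : (lo W A)[X], eval₂ (lo W A).subtype z g = 0 → g = 0 := by
    intro g hg
    have hPL : ∀ a : lo W A, ∃ l : L, algebraMap L F l = a := by
      rintro ⟨_, a, ha, b, hb, hb0, hbW, rfl⟩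
      obtain ⟨l, hl⟩ := hAL a ha
      obtain ⟨m, hm⟩ := hAL b hb
      exact ⟨l * m⁻¹, by rw [map_mul, map_inv₀, hl, hm]⟩
    let R := (algebraMap L F).range
    let j : lo W A →+* R := (lo W A).subtype.codRestrict R fun a => hPL a
    let q : L ≃+* R := RingEquiv.ofBijective (algebraMap L F).rangeRestrict
      ⟨fun a b hab => (algebraMap L F).injective (congrArg Subtype.val hab),
        (algebraMap L F).rangeRestrict_surjective⟩
    let i : lo W A →+* L := (q.symm : R →+* L).comp j
    have hi : ∀ a, algebraMap L F (i a) = a := by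
      intro a
      have h2 : q (i a) = j a := q.apply_symm_apply _
      have h3 := congrArg Subtype.val h2
      exact h3
    have hinj : Function.Injective i := by
      intro a b hab
      apply Subtype.ext
      rw [← hi a, ← hi b, hab]
    have h4 : aeval z (g.map i) = 0 := by
      rw [aeval_def, eval₂_map]
      have e1 : (algebraMap L F).comp i = (lo W A).subtype := RingHom.ext hi
      rw [e1]
      exact hg
    have h5 := transcendental_iff.1 hz _ h4
    exact (Polynomial.map_eq_zero_iff hinj).1 h5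
  have h2 := RegP.trans hW hAW h1 (hBW self_mem_closure) hz0 htr
  let g : {a : ι // (Sum.elim x (fun _ : Unit => z) (f a))⁻¹ ∉ W} → κ ⊕ Unit := fun a =>
    if ha : ∃ i, f a.1 = Sum.inl i then Sum.inl ⟨a.1, ha⟩ else Sum.inr ()
  refine regP_reindex h2 _ (fun a => hne _) (fun a => le_lo _ _ (hmem _)) g ?_ ?_
  · intro a b hab
    apply Subtype.ext
    simp only [g] at hab
    split_ifs at hab with ha hb hb
    · have h3 := Sum.inl_injective hab
      exact congrArg (fun c : κ => c.1) h3
    · apply hf
      rcases hfa : f a.1 with i | i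
      · exact absurd ⟨i, hfa⟩ ha
      · rcases hfb : f b.1 with j | j
        · exact absurd ⟨j, hfb⟩ hb
        · rfl
  · intro a
    simp only [g]
    split_ifs with ha
    · change _ = x (e ⟨a.1, ha⟩)
      rw [he ⟨a.1, ha⟩]
      rfl
    · rcases hfa : f a.1 with i | i
      · exact absurd ⟨i, hfa⟩ ha
      · rfl

end trans

section add

variable {A : Subring F} {I : Type} {x : I → F}

/-- Adding an element to a divisor. -/
theorem RegC.add (h : RegC A x) {y : F} (hy : y ∈ A) (hy0 : y ≠ 0) (D : Derivation ℤ F F)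
    (hD : ∀ a ∈ A, D a ∈ A) (hx : ∀ i, D (x i) / x i ∈ A)
    (hu : ∀ W : Subring F, Loc W → A ≤ W → y⁻¹ ∉ W → D y ≠ 0 ∧ (D y)⁻¹ ∈ W) :
    RegC A (fun o : Option I => o.elim y x) := by
  classical
  have hne : ∀ o : Option I, o.elim y x ≠ 0 := by
    rintro (_ | l)
    · exact hy0
    · exact h.ne l
  have hmem : ∀ o : Option I, o.elim y x ∈ A := by
    rintro (_ | l)
    · exact hy
    · exact h.mem l
  refine ⟨hne, hmem, fun W hW hAW ι _ f hf => ?_⟩
  let κ := {a : ι // ∃ i, f a = some i}
  choose e he using fun a : κ => a.2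
  have h1 := h.reg W hW hAW κ e (by
    intro a b hab
    apply Subtype.ext
    apply hf
    rw [he, he, hab])
  have hreg := h1.reg
  -- the derivation preserves the local ring
  have hDP : ∀ p ∈ lo W A, D p ∈ lo W A := by
    rintro _ ⟨a, ha, b, hb, hb0, hbW, rfl⟩
    have hbP : b⁻¹ ∈ lo W A := inv_mem_lo hAW (le_lo _ _ hb) hb0 hbW
    rw [Derivation.leibniz, Derivation.leibniz_inv]
    simp only [smul_eq_mul]
    refine (lo W A).add_mem ((lo W A).mul_mem (le_lo _ _ ha) ((lo W A).mul_mem
      ((lo W A).neg_mem ((lo W A).pow_mem hbP 2)) (le_lo _ _ (hD _ hb))))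
      ((lo W A).mul_mem hbP (le_lo _ _ (hD _ ha)))
  let δ : lo W A → lo W A := fun p => ⟨D p, hDP p p.2⟩
  have hδadd : ∀ p q, δ (p + q) = δ p + δ q := fun p q => Subtype.ext (map_add D _ _)
  have hδmul : ∀ p q, δ (p * q) = p * δ q + q * δ p := fun p q => by
    apply Subtype.ext
    change D ((p : F) * q) = p * D q + q * D p
    rw [Derivation.leibniz]
    rfl
  have hδ2 : ∀ p ∈ maximalIdeal (lo W A) ^ 2, δ p ∈ maximalIdeal (lo W A) := by
    intro p hp
    rw [pow_two] at hp
    induction hp using Submodule.mul_induction_on' with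
    | mem_mul_mem a ha b hb =>
      rw [hδmul]
      exact (maximalIdeal _).add_mem ((maximalIdeal _).mul_mem_right _ ha)
        ((maximalIdeal _).mul_mem_right _ hb)
    | add a _ b _ ha hb =>
      rw [hδadd]
      exact (maximalIdeal _).add_mem ha hb
  have hmm : ∀ p : lo W A, p ∈ maximalIdeal (lo W A) ↔ ¬ ((p : F) ≠ 0 ∧ (p : F)⁻¹ ∈ W) :=
    fun p => h1.mem_max p
  have key : RegP W (lo W A) (fun o : Option κ => o.elim y fun a => x (e a)) := by
    refine ⟨h1.PA, ?_, ?_, h1.reg, h1.inv, ?_⟩
    · rintro (_ | l)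
      · exact hy0
      · exact h.ne _
    · rintro (_ | l)
      · exact le_lo _ _ hy
      · exact le_lo _ _ (h.mem _)
    · intro c hc hs
      rw [Fintype.sum_option] at hs
      let Y : lo W A := ⟨y, le_lo _ _ hy⟩
      let X : κ → lo W A := fun a => ⟨x (e a), le_lo _ _ (h.mem _)⟩
      have hs' : c none * Y + ∑ a, c (some a) * X a ∈ maximalIdeal (lo W A) ^ 2 := hs
      have hδX : ∀ a, ∃ w : lo W A, δ (X a) = w * X a := by
        intro a
        refine ⟨⟨D (x (e a)) / x (e a), le_lo _ _ (hx _)⟩, Subtype.ext ?_⟩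
        change D (x (e a)) = D (x (e a)) / x (e a) * x (e a)
        rw [div_mul_cancel₀ _ (h.ne _)]
      have hcX : ∀ a, δ (c (some a) * X a) ∈ maximalIdeal (lo W A) := by
        intro a
        by_cases ha : X a ∈ maximalIdeal (lo W A)
        · rw [hδmul]
          obtain ⟨w, hw⟩ := hδX a
          rw [hw]
          exact (maximalIdeal _).add_mem
            ((maximalIdeal _).mul_mem_left _ ((maximalIdeal _).mul_mem_left _ ha))
            ((maximalIdeal _).mul_mem_right _ ha)
        · have h3 : c (some a) = 0 := hc (some a) ha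
          rw [h3, zero_mul]
          have h4 : δ 0 = 0 := Subtype.ext (map_zero D)
          rw [h4]
          exact Ideal.zero_mem _
      have hsum : ∀ s : Finset κ, δ (∑ a ∈ s, c (some a) * X a) ∈ maximalIdeal (lo W A) := by
        intro s
        induction s using Finset.induction_on with
        | empty =>
          rw [Finset.sum_empty]
          have h4 : δ 0 = 0 := Subtype.ext (map_zero D)
          rw [h4]
          exact Ideal.zero_mem _
        | insert a s ha ih =>
          rw [Finset.sum_insert ha, hδadd]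
          exact (maximalIdeal _).add_mem (hcX a) ih
      have hcn : c none ∈ maximalIdeal (lo W A) ∧ c none * Y ∈ maximalIdeal (lo W A) ^ 2 := by
        by_cases hY : Y ∈ maximalIdeal (lo W A)
        · have h3 := hδ2 _ hs'
          rw [hδadd, hδmul] at h3
          have h4 : c none * δ Y ∈ maximalIdeal (lo W A) := by
            have h5 := (maximalIdeal (lo W A)).sub_mem ((maximalIdeal (lo W A)).sub_mem h3
              (hsum Finset.univ)) ((maximalIdeal (lo W A)).mul_mem_right (δ (c none)) hY)
            have h6 : c none * δ Y + Y * δ (c none) + δ (∑ a, c (some a) * X a) -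
                δ (∑ a, c (some a) * X a) - Y * δ (c none) = c none * δ Y := by ring
            rw [h6] at h5
            exact h5
          have h5 : IsUnit (δ Y) := by
            rw [isUnit_lo_iff hAW]
            exact hu W hW hAW (fun h6 => (hmm Y).1 hY ⟨hy0, h6⟩)
          have h6 : c none ∈ maximalIdeal (lo W A) := (Ideal.mul_unit_mem_iff_mem _ h5).1 h4
          refine ⟨h6, ?_⟩
          rw [pow_two]
          exact Ideal.mul_mem_mul h6 hY
        · have h3 : c none = 0 := hc none hY
          rw [h3, zero_mul]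
          exact ⟨Ideal.zero_mem _, Ideal.zero_mem _⟩
      have h3 := h1.ind (fun a => c (some a)) (fun a ha => hc (some a) ha) (by
        have h4 := (maximalIdeal (lo W A) ^ 2).sub_mem hs' hcn.2
        rwa [add_sub_cancel_left] at h4)
      rintro (_ | a)
      · exact hcn.1
      · exact h3 a
  let g : {a : ι // ((f a).elim y x)⁻¹ ∉ W} → Option κ := fun a =>
    if ha : ∃ i, f a.1 = some i then some ⟨a.1, ha⟩ else none
  refine regP_reindex key _ (fun a => hne _) (fun a => le_lo _ _ (hmem _)) g ?_ ?_
  · intro a b hab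
    apply Subtype.ext
    simp only [g] at hab
    split_ifs at hab with ha hb hb
    · have h3 := Option.some_injective _ hab
      exact congrArg (fun c : κ => c.1) h3
    · apply hf
      rcases hfa : f a.1 with _ | i
      · rcases hfb : f b.1 with _ | j
        · rfl
        · exact absurd ⟨j, hfb⟩ hb
      · exact absurd ⟨i, hfa⟩ ha
  · intro a
    simp only [g]
    split_ifs with ha
    · change _ = x (e ⟨a.1, ha⟩)
      rw [he ⟨a.1, ha⟩]
      rfl
    · rcases hfa : f a.1 with _ | i
      · rfl
      · exact absurd ⟨i, hfa⟩ ha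

end add

section prime

variable {A : Subring F} {I : Type} {x : I → F}

lemma loc_ofPrime (A : Subring F) (P : Ideal A) [P.IsPrime] :
    Loc (LocalSubring.ofPrime A P).toSubring := by
  intro a ha
  have : IsLocalRing (LocalSubring.ofPrime A P).toSubring :=
    (LocalSubring.ofPrime A P).isLocalRing
  have key : ∀ b : (LocalSubring.ofPrime A P).toSubring, IsUnit b → (b : F) ≠ 0 ∧
      (b : F)⁻¹ ∈ (LocalSubring.ofPrime A P).toSubring := by
    intro b hb
    obtain ⟨c, hc⟩ := isUnit_iff_exists_inv.1 hb
    have h1 : (b : F) * c = 1 := congrArg Subtype.val hc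
    refine ⟨left_ne_zero_of_mul_eq_one h1, ?_⟩
    rw [← eq_inv_of_mul_eq_one_right h1]
    exact c.2
  rcases IsLocalRing.isUnit_or_isUnit_one_sub_self
    (⟨a, ha⟩ : (LocalSubring.ofPrime A P).toSubring) with h | h
  · exact Or.inl (key _ h)
  · exact Or.inr (key _ h)

lemma inv_mem_ofPrime {A : Subring F} {P : Ideal A} [P.IsPrime] {a : A} (ha : a ∉ P) :
    (a : F)⁻¹ ∈ (LocalSubring.ofPrime A P).toSubring := by
  have h1 := IsLocalization.map_units (LocalSubring.ofPrime A P).toSubring
    (⟨a, ha⟩ : P.primeCompl)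
  obtain ⟨c, hc⟩ := isUnit_iff_exists_inv.1 h1
  have h2 : (a : F) * c = 1 := congrArg Subtype.val hc
  rw [← eq_inv_of_mul_eq_one_right h2]
  exact c.2

lemma not_inv_mem_ofPrime {A : Subring F} {P : Ideal A} [P.IsPrime] {a : A} (ha : a ∈ P)
    (h0 : (a : F) ≠ 0) : (a : F)⁻¹ ∉ (LocalSubring.ofPrime A P).toSubring := by
  intro h
  have h1 : IsUnit (algebraMap A (LocalSubring.ofPrime A P).toSubring a) :=
    isUnit_iff_exists_inv.2 ⟨⟨_, h⟩, Subtype.ext (mul_inv_cancel₀ h0)⟩
  exact ((IsLocalization.AtPrime.isUnit_to_map_iff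
    (LocalSubring.ofPrime A P).toSubring P a).1 h1) ha

lemma lo_ofPrime (A : Subring F) (P : Ideal A) [P.IsPrime] :
    lo (LocalSubring.ofPrime A P).toSubring A = (LocalSubring.ofPrime A P).toSubring := by
  apply le_antisymm (lo_le (LocalSubring.le_ofPrime A P))
  intro y hy
  obtain ⟨⟨a, b⟩, hab⟩ := IsLocalization.surj P.primeCompl
    (⟨y, hy⟩ : (LocalSubring.ofPrime A P).toSubring)
  have hab' : y * (b : A) = a := congrArg Subtype.val hab
  have hb0 : ((b : A) : F) ≠ 0 := by
    intro h0
    apply b.2
    have : (b : A) = 0 := Subtype.ext h0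
    rw [this]
    exact P.zero_mem
  refine ⟨a, a.2, (b : A), (b : A).2, hb0, inv_mem_ofPrime b.2, ?_⟩
  rw [← hab', mul_assoc, mul_inv_cancel₀ hb0, mul_one]

theorem RegC.reg_ofPrime (h : RegC A x) (P : Ideal A) [P.IsPrime] :
    IsRegularLocalRing (LocalSubring.ofPrime A P).toSubring := by
  have h1 := (h.reg _ (loc_ofPrime A P) (LocalSubring.le_ofPrime A P) Empty (fun e => e.elim)
    (fun e => e.elim)).reg
  rwa [lo_ofPrime] at h1

theorem RegC.isRegularRing (h : RegC A x) [IsNoetherianRing A] : IsRegularRing A := by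
  rw [isRegularRing_iff]
  intro P hP
  have := h.reg_ofPrime P
  exact IsRegularLocalRing.of_ringEquiv (LocalSubring.ofPrimeEquiv A P).symm.toRingEquiv

theorem RegC.isIntegrallyClosed (h : RegC A x) [IsNoetherianRing A] : IsIntegrallyClosed A := by
  have := h.isRegularRing
  exact isIntegrallyClosed_of_regular A

/-- A component which occurs in a unit is empty. -/
theorem RegC.inv_mem_of_prod [Fintype I] (h : RegC A x) (d : I → ℤ) (h1 : ∏ i, x i ^ d i ∈ A)
    (h2 : (∏ i, x i ^ d i)⁻¹ ∈ A) (i : I) (hi : d i ≠ 0) : (x i)⁻¹ ∈ A := by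
  classical
  wlog hpos : 0 < d i generalizing d
  · refine this (fun i => - d i) ?_ ?_ (by simpa using hi) ?_
    · simp only [zpow_neg, Finset.prod_inv_distrib]
      exact h2
    · simp only [zpow_neg, Finset.prod_inv_distrib, inv_inv]
      exact h1
    · omega
  by_contra hcon
  have hnu : ¬ IsUnit (⟨x i, h.mem i⟩ : A) := by
    intro hu
    apply hcon
    obtain ⟨c, hc⟩ := isUnit_iff_exists_inv.1 hu
    have h3 : x i * c = 1 := congrArg Subtype.val hc
    rw [← eq_inv_of_mul_eq_one_right h3]
    exact c.2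
  obtain ⟨m, hm, him⟩ := exists_max_ideal_of_mem_nonunits hnu
  have hmp : m.IsPrime := hm.isPrime
  let W := (LocalSubring.ofPrime A m).toSubring
  have hAW : A ≤ W := LocalSubring.le_ofPrime A m
  have hiW : (x i)⁻¹ ∉ W := not_inv_mem_ofPrime him (h.ne i)
  have hP := h.reg W (loc_ofPrime A m) hAW I id Function.injective_id
  have hreg := hP.reg
  let X : I → lo W A := fun l => ⟨x l, le_lo _ _ (h.mem l)⟩
  have hXm : ∀ l, X l ∈ maximalIdeal (lo W A) ↔ (x l)⁻¹ ∉ W := by
    intro l
    rw [hP.mem_max]
    constructor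
    · intro h3 h4
      exact h3 ⟨h.ne l, h4⟩
    · rintro h3 ⟨-, h4⟩
      exact h3 h4
  have hprime : Prime (X i) := by
    have h3 : Ind (fun _ : Unit => X i) :=
      hP.ind.ind (fun _ : Unit => i) (fun _ _ _ => rfl) (fun _ => (hXm i).2 hiW)
    exact h3.prime ()
  have e1 : (∏ l, X l ^ (d l).toNat : lo W A) =
      ⟨∏ l, x l ^ d l, le_lo _ _ h1⟩ * ∏ l, X l ^ (- d l).toNat := by
    apply Subtype.ext
    have e2 : ∀ n : I → ℕ, ((∏ l, X l ^ n l : lo W A) : F) = ∏ l, x l ^ n l := by
      intro n
      rw [SubmonoidClass.coe_finsetProd]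
      rfl
    change ((∏ l, X l ^ (d l).toNat : lo W A) : F) =
      (∏ l, x l ^ d l) * ((∏ l, X l ^ (- d l).toNat : lo W A) : F)
    rw [e2, e2, ← Finset.prod_mul_distrib]
    refine Finset.prod_congr rfl fun l _ => ?_
    rw [← zpow_natCast, ← zpow_natCast, ← zpow_add₀ (h.ne l)]
    congr 1
    omega
  have hu : IsUnit (⟨∏ l, x l ^ d l, le_lo _ _ h1⟩ : lo W A) := by
    rw [isUnit_lo_iff hAW]
    exact ⟨Finset.prod_ne_zero_iff.2 fun l _ => zpow_ne_zero _ (h.ne l), hAW h2⟩
  have h3 : X i ∣ ∏ l, X l ^ (- d l).toNat := by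
    rw [← hu.dvd_mul_left, ← e1]
    exact (dvd_pow_self _ (by omega)).trans (Finset.dvd_prod_of_mem _ (Finset.mem_univ i))
  obtain ⟨l, -, hl⟩ := hprime.exists_mem_finset_dvd h3
  have hli : l ≠ i := by
    rintro rfl
    have : (- d l).toNat = 0 := by omega
    rw [this, pow_zero] at hl
    exact hprime.not_isUnit (isUnit_of_dvd_one hl)
  have hl' := hprime.dvd_of_dvd_pow hl
  by_cases hlm : (x l)⁻¹ ∈ W
  · have h4 : IsUnit (X l) := by
      rw [isUnit_lo_iff hAW]
      exact ⟨h.ne l, hlm⟩
    exact hprime.not_isUnit (isUnit_of_dvd_unit hl' h4)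
  · have h4 : Ind (fun b : Bool => X (if b then i else l)) :=
      hP.ind.ind (fun b : Bool => if b then i else l) (by
        intro a b hab
        cases a <;> cases b <;> simp_all) (by
        intro b
        cases b
        · exact (hXm l).2 hlm
        · exact (hXm i).2 hiW)
    exact h4.not_dvd (i := true) (j := false) (by simp) hl'

end prime

end Pool.Agent.N98.RV
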