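import Pool.Agent.H59.L.T374d34.N98.RV.Basic

/-!
Fields with logarithmic regular models, relative to a set of valuation rings.
-/

set_option autoImplicit false

universe u

namespace Pool.Agent.N98.RV

/-- Every finite family of nonzero elements of `E` is locally monomial on some regular
quasi-projective model over `k` with normal crossings divisor, on which all valuation rings in `𝒲`
have centres. -/
def HasRM (k : Type u) {E : Type u} [CommRing k] [Field E] [Algebra k E]
    (𝒲 : Set (ValuationSubring E)) : Prop :=
  ∀ (H : Type) [Fintype H] (h : H → E), (∀ t, h t ≠ 0) →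
    ∃ (T I : Type) (_ : Finite T) (_ : Fintype I) (M : LM 𝒲 (⊥ : Subalgebra k E) ⊤ T I),
      (∀ t, IsB M (h t)) ∧ Frc M

/-- The valuation rings of `K` over the given valuation rings of `E`. -/
def exV {E : Type u} (K : Type u) [Field E] [Field K] [Algebra E K]
    (𝒲 : Set (ValuationSubring E)) : Set (ValuationSubring K) :=
  {V | V.comap (algebraMap E K) ∈ 𝒲}

lemma exV_comap {E L K : Type u} [Field E] [Field L] [Field K] [Algebra E L] [Algebra E K]
    [Algebra L K] [IsScalarTower E L K] {𝒲 : Set (ValuationSubring E)} {V : ValuationSubring K}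
    (hV : V ∈ exV K 𝒲) : V.comap (algebraMap L K) ∈ exV L 𝒲 := by
  change (V.comap (algebraMap L K)).comap (algebraMap E L) ∈ 𝒲
  rw [ValuationSubring.comap_comap, ← IsScalarTower.algebraMap_eq]
  exact hV

end Pool.Agent.N98.RV
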