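import Pool.Agent.H59.L.T374d34.N98.RV.AddC
import Pool.Agent.H59.L.T374d34.N98.Dich

/-!
Refinement of the charts of a model from a local property.
-/

set_option autoImplicit false
set_option linter.unusedVariables false
set_option linter.unusedSectionVars false

universe u

open Pool.Agent.W418.LU2

namespace Pool.Agent.N98.RV

section cover

variable {K : Type u} [Field K]

lemma exists_cover (A : Subring K) (Q : K → Prop)
    (h : ∀ 𝔪 : Ideal A, 𝔪.IsMaximal → ∃ f : A, f ∉ 𝔪 ∧ Q f) :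
    ∃ s : Finset K, s.Nonempty ∧ (∀ f ∈ s, f ∈ A ∧ f ≠ 0 ∧ Q f) ∧
      ∀ V : ValuationSubring K, (∀ f ∈ A, f ∈ V) → ∃ f ∈ s, f⁻¹ ∈ V := by
  classical
  let S : Set A := {f | f ≠ 0 ∧ Q f}
  have hS : Ideal.span S = ⊤ := by
    by_contra hne
    obtain ⟨𝔪, hm, hle⟩ := Ideal.exists_le_maximal _ hne
    obtain ⟨f, hf, hQ⟩ := h 𝔪 hm
    refine hf (hle (Ideal.subset_span ⟨?_, hQ⟩))
    rintro rfl
    exact hf 𝔪.zero_mem
  obtain ⟨s', hs', hs⟩ := (Ideal.span_eq_top_iff_finite _).1 hS
  have key : ∀ V : ValuationSubring K, (∀ f ∈ A, f ∈ V) →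
      ∃ f ∈ s'.image (Subtype.val : A → K), f⁻¹ ∈ V := by
    intro V hV
    by_contra hcon
    push Not at hcon
    let j : A →+* V :=
      { toFun := fun a => ⟨a, hV a a.2⟩
        map_one' := rfl
        map_mul' := fun a b => rfl
        map_zero' := rfl
        map_add' := fun a b => rfl }
    have h1 : Ideal.span (s' : Set A) ≤ (IsLocalRing.maximalIdeal V).comap j := by
      rw [Ideal.span_le]
      intro f hf
      have h2 := hcon f (Finset.mem_image_of_mem _ hf)
      change j f ∈ IsLocalRing.maximalIdeal V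
      rw [IsLocalRing.mem_maximalIdeal, mem_nonunits_iff]
      intro hu
      obtain ⟨c, hc⟩ := hu.exists_right_inv
      have h3 : (f : K) * c = 1 := congrArg Subtype.val hc
      apply h2
      rw [← eq_inv_of_mul_eq_one_right h3]
      exact c.2
    rw [hs] at h1
    have h2 : j 1 ∈ IsLocalRing.maximalIdeal V := h1 (Submodule.mem_top : (1 : A) ∈ ⊤)
    rw [map_one] at h2
    exact (IsLocalRing.maximalIdeal.isMaximal V).ne_top ((Ideal.eq_top_iff_one _).2 h2)
  refine ⟨s'.image Subtype.val, ?_, ?_, key⟩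
  · obtain ⟨f, hf, -⟩ := key ⊤ (fun _ _ => trivial)
    exact ⟨f, hf⟩
  · intro f hf
    obtain ⟨g, hg, rfl⟩ := Finset.mem_image.1 hf
    obtain ⟨h1, h2⟩ := hs' hg
    exact ⟨g.2, fun h0 => h1 (Subtype.ext h0), h2⟩

/-- Common denominators. -/
lemma exists_denom (A : Subring K) (P : Ideal A) [P.IsPrime] {ι : Type*} (s : Finset ι)
    (z : ι → K) (hz : ∀ i ∈ s, z i ∈ (LocalSubring.ofPrime A P).toSubring) :
    ∃ d : A, d ∉ P ∧ ∀ i ∈ s, z i * d ∈ A := by
  classical
  induction s using Finset.induction_on with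
  | empty => exact ⟨1, fun h => ‹P.IsPrime›.ne_top ((Ideal.eq_top_iff_one _).2 h), by simp⟩
  | insert i s hi ih =>
    obtain ⟨d, hd, h1⟩ := ih fun i hi => hz i (Finset.mem_insert_of_mem hi)
    obtain ⟨⟨a, b⟩, hab⟩ := IsLocalization.surj P.primeCompl
      (⟨z i, hz i (Finset.mem_insert_self i s)⟩ : (LocalSubring.ofPrime A P).toSubring)
    have hab' : z i * (b : A) = a := congrArg Subtype.val hab
    refine ⟨b * d, fun h => (‹P.IsPrime›.mem_or_mem h).elim b.2 hd, ?_⟩
    intro j hj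
    rcases Finset.mem_insert.1 hj with rfl | hj
    · have : z j * ((b * d : A) : K) = a * d := by
        rw [← hab']; push_cast; ring
      rw [this]
      exact A.mul_mem a.2 d.2
    · have : z j * ((b * d : A) : K) = b * (z j * d) := by
        push_cast; ring
      rw [this]
      exact A.mul_mem (b : A).2 (h1 j hj)

end cover

section norm

variable {k K : Type u} [CommRing k] [Field K] [Algebra k K]

lemma noeth_chart [IsNoetherianRing k] {A : Subalgebra k K} (h : Algebra.FiniteType k A) :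
    IsNoetherianRing A := Algebra.FiniteType.isNoetherianRing k A

lemma isIntegrallyClosedIn_ofPrime [IsNoetherianRing k] {A : Subalgebra k K}
    (hft : Algebra.FiniteType k A) {I : Type} {x : I → K} (hA : RegC A.toSubring x)
    (hfr : ∀ x : K, ∃ a ∈ A, ∃ b ∈ A, b ≠ 0 ∧ x = a * b⁻¹) (P : Ideal A.toSubring) [P.IsPrime] :
    IsIntegrallyClosedIn (LocalSubring.ofPrime A.toSubring P).toSubring K := by
  have h1 : IsNoetherianRing A := noeth_chart hft
  have h1' : IsNoetherianRing A.toSubring := h1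
  have h2 : IsIntegrallyClosed A.toSubring := hA.isIntegrallyClosed
  have h3 : IsFractionRing A.toSubring K := by
    refine IsFractionRing.of_field _ K fun z => ?_
    obtain ⟨a, ha, b, hb, hb0, hz⟩ := hfr z
    exact ⟨⟨a, ha⟩, ⟨b, hb⟩, by rw [div_eq_mul_inv]; exact hz⟩
  have h4 : IsIntegrallyClosed (LocalSubring.ofPrime A.toSubring P).toSubring :=
    isIntegrallyClosed_of_isLocalization _ P.primeCompl P.primeCompl_le_nonZeroDivisors
  have h5 : IsFractionRing (LocalSubring.ofPrime A.toSubring P).toSubring K := by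
    refine IsFractionRing.of_field _ K fun z => ?_
    obtain ⟨a, ha, b, hb, hb0, hz⟩ := hfr z
    exact ⟨⟨a, LocalSubring.le_ofPrime _ _ ha⟩, ⟨b, LocalSubring.le_ofPrime _ _ hb⟩, by
      rw [div_eq_mul_inv]; exact hz⟩
  exact (isIntegrallyClosed_iff_isIntegrallyClosedIn K).1 h4

end norm

section refine

variable {k K : Type u} [CommRing k] [Field K] [Algebra k K]
  {𝒱 : Set (ValuationSubring K)} {R0 R : Subalgebra k K}
    {T I : Type}

/-- Refinement of the charts from a local property. -/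
theorem exists_refine_local [Finite T] [Fintype I] (M : LM 𝒱 R0 R T I)
    (Q : T → K → Prop)
    (h : ∀ t (𝔪 : Ideal (M.A t).toSubring), 𝔪.IsMaximal →
      ∃ f : (M.A t).toSubring, f ∉ 𝔪 ∧ Q t f) :
    ∃ (J : Type) (_ : Finite J) (d : T → J → K) (M' : LM 𝒱 R0 R (T × J) I),
      OvL M M' Prod.fst ∧ M'.x = (fun p => M.x p.1) ∧ (∀ t j, d t j ∈ M.A t) ∧
      (∀ t j, d t j ≠ 0) ∧ (∀ t j, Q t (d t j)) ∧ ∀ p, M'.A p = adj (M.A p.1) (d p.1 p.2)⁻¹ := by
  classical
  have : Fintype T := Fintype.ofFinite T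
  choose s hs0 hs1 hs2 using fun t => exists_cover (M.A t).toSubring (Q t) (h t)
  choose f0 hf0 using hs0
  let N := Finset.univ.sup fun t => (s t).card
  have hN : ∀ t, (s t).card ≤ N := fun t =>
    Finset.le_sup (f := fun t => (s t).card) (Finset.mem_univ t)
  let d : T → Fin N → K := fun t j => if hj : j.val < (s t).card then
    ((s t).equivFin.symm ⟨j.val, hj⟩ : K) else f0 t
  have hd : ∀ t j, d t j ∈ s t := by
    intro t j
    by_cases hj : j.val < (s t).card
    · have : d t j = ((s t).equivFin.symm ⟨j.val, hj⟩ : K) := dif_pos hj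
      rw [this]
      exact ((s t).equivFin.symm ⟨j.val, hj⟩).2
    · have : d t j = f0 t := dif_neg hj
      rw [this]
      exact hf0 t
  have hd' : ∀ t, ∀ f ∈ s t, ∃ j, d t j = f := by
    intro t f hf
    let i := (s t).equivFin ⟨f, hf⟩
    refine ⟨⟨i.val, i.2.trans_le (hN t)⟩, ?_⟩
    have h1 : d t ⟨i.val, i.2.trans_le (hN t)⟩ = ((s t).equivFin.symm ⟨i.val, i.2⟩ : K) :=
      dif_pos i.2
    rw [h1]
    change ((s t).equivFin.symm ((s t).equivFin ⟨f, hf⟩) : K) = f
    rw [Equiv.symm_apply_apply]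
  have hmem : ∀ t j, d t j ∈ M.A t := fun t j => (hs1 t _ (hd t j)).1
  have hne : ∀ t j, d t j ≠ 0 := fun t j => (hs1 t _ (hd t j)).2.1
  obtain ⟨M', hA, hx, -⟩ := exists_refine M d hmem hne (by
    intro t V hV
    obtain ⟨f, hf, h1⟩ := hs2 t V hV
    obtain ⟨j, hj⟩ := hd' t f hf
    exact ⟨j, by rw [hj]; exact h1⟩)
  exact ⟨Fin N, inferInstance, d, M', ovl_refine M d hmem M' hA hx, hx, hmem, hne,
    fun t j => (hs1 t _ (hd t j)).2.2, fun p => by rw [hA]; rfl⟩

end refine

end Pool.Agent.N98.RV
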