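import Pool.Agent.H59.L.T374d34.N98.RV.P1
import Pool.Agent.H59.L.T374d34.N98.RV.HasRM
import Pool.Agent.H59.L.T374d34.N98.Filt
import Pool.Agent.H59.L.T374d34.N98.Tn

/-!
Families of polynomials of bounded degree over a base: induction on the number of variables.
-/

set_option autoImplicit false
set_option linter.unusedVariables false
set_option linter.unusedSimpArgs false
set_option linter.unusedSectionVars false

universe u

open scoped IntermediateField.algebraAdjoinAdjoin

open Polynomial Pool.Agent.W558 Pool.Agent.N98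

namespace Pool.Agent.N98.RV

/-- The derivatives do not vanish. -/
lemma iter_ne_zero' {σ k E : Type*} [CommRing k] [Field E] [Algebra k E] {D : ℕ}
    (hD : IsUnit ((Nat.factorial D : ℕ) : k))
    {G : (MvPolynomial σ E)[X]} (hG : G ≠ 0) (hd : G.natDegree ≤ D) (j : ℕ)
    (hj : j ≤ G.natDegree) : derivative^[j] G ≠ 0 := by
  intro h0
  have h1 : (derivative^[j] G).coeff (G.natDegree - j) =
      (0 : (MvPolynomial σ E)[X]).coeff (G.natDegree - j) := by
    rw [h0]
  rw [coeff_iterate_derivative, coeff_zero, Nat.sub_add_cancel hj, nsmul_eq_mul] at h1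
  rcases mul_eq_zero.1 h1 with h2 | h2
  · have h3 : G.natDegree.descFactorial j ∣ Nat.factorial D := by
      refine dvd_trans ?_ (Nat.factorial_dvd_factorial hd)
      exact ⟨_, by rw [mul_comm]; exact (Nat.factorial_mul_descFactorial hj).symm⟩
    obtain ⟨m, hm⟩ := h3
    rw [hm, Nat.cast_mul] at hD
    have h4 : IsUnit ((G.natDegree.descFactorial j : ℕ) : k) := isUnit_of_mul_isUnit_left hD
    have h5 := h4.map (algebraMap k (MvPolynomial σ E))
    rw [map_natCast, h2] at h5
    exact not_isUnit_zero h5
  · rw [coeff_natDegree, leadingCoeff_eq_zero] at h2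
    exact hG h2

section main

variable (k E : Type u) [CommRing k] [IsNoetherianRing k] [Field E] [Algebra k E]

/-- **Families of polynomials of bounded degree.** -/
theorem tn {𝒲 : Set (ValuationSubring E)} (hE : HasRM k 𝒲) : ∀ (n D : ℕ), 1 ≤ D →
    (n ≠ 0 → IsUnit ((Nat.factorial (D ^ 2 ^ (n - 1)) : ℕ) : k)) →
    ∀ (K : Type u) [Field K] [Algebra E K] [Algebra k K] [IsScalarTower k E K]
    (_ : (exV K 𝒲).Nonempty) (x : Fin n → K),
    AlgebraicIndependent E x → IntermediateField.adjoin E (Set.range x) = ⊤ →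
    ∀ (B : Type) [Finite B] (P : B → MvPolynomial (Fin n) E), (∀ b, P b ≠ 0) →
    (∀ b, (P b).totalDegree ≤ D) →
    ∃ (T I : Type) (_ : Finite T) (_ : Fintype I) (M : LM (exV K 𝒲) (⊥ : Subalgebra k K) ⊤ T I),
      Frc M ∧ (∀ b, IsBr M (MvPolynomial.aeval x (P b))) ∧
      ∀ t, (∀ e : E, ∃ a b : E, algebraMap E K a ∈ M.A t ∧ algebraMap E K b ∈ M.A t ∧ b ≠ 0 ∧
        e = a * b⁻¹) ∧ ∀ i, x i ∈ M.A t ∨ (x i)⁻¹ ∈ M.A t := by
  classical
  intro n
  induction n with
  | zero =>
    intro D hD _ K _ _ _ _ hne x hx htop B _ P hP hdeg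
    have := Fintype.ofFinite B
    have hPC : ∀ b, P b = MvPolynomial.C ((P b).coeff 0) := fun b =>
      MvPolynomial.eq_C_of_isEmpty _
    have h0 : ∀ b, (P b).coeff 0 ≠ 0 := by
      intro b h
      apply hP b
      rw [hPC b, h, map_zero]
    obtain ⟨T, I, hT, hI, M, hF, hfr⟩ := hE B (fun b => (P b).coeff 0) h0
    have hsurj : ∀ y : K, ∃ e : E, algebraMap E K e = y := by
      intro y
      have hy : y ∈ IntermediateField.adjoin E (Set.range x) := by rw [htop]; trivial
      have : Set.range x = ∅ := Set.range_eq_empty x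
      rw [this, IntermediateField.adjoin_empty, IntermediateField.mem_bot] at hy
      exact hy
    refine ⟨T, I, hT, hI, mapLM (𝒲 := 𝒲) hne (fun V hV => hV) M, ?_, ?_,
      fun t => ⟨?_, fun i => i.elim0⟩⟩
    · intro t y
      obtain ⟨e, rfl⟩ := hsurj y
      obtain ⟨a, ha, b, hb, hb0, rfl⟩ := hfr t e
      exact ⟨algebraMap E K a, ⟨a, ha, rfl⟩, algebraMap E K b, ⟨b, hb, rfl⟩,
        (_root_.map_ne_zero _).2 hb0, by rw [map_mul, map_inv₀]⟩
    · intro b
      rw [hPC b, MvPolynomial.aeval_C]
      exact isBr_map (𝒲 := 𝒲) hne (fun V hV => hV) (IsB.br (hF b))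
    · intro e
      obtain ⟨a, ha, b, hb, hb0, he⟩ := hfr t e
      exact ⟨a, b, ⟨a, ha, rfl⟩, ⟨b, hb, rfl⟩, hb0, he⟩
  | succ n ih =>
    intro D hD hchar K _ _ _ _ hne x hx htop B _ P hP hdeg
    have hchar' := hchar (Nat.succ_ne_zero n)
    rw [Nat.add_sub_cancel] at hchar'
    let R0 := MvPolynomial (Fin n) E
    let L := LF (E := E) x
    have hs1 : IsScalarTower k E L := IsScalarTower.of_algebraMap_eq fun r =>
      Subtype.ext (IsScalarTower.algebraMap_apply k E K r)
    have hs2 : IsScalarTower k L K := IsScalarTower.of_algebraMap_eq fun r => rfl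
    let φ : R0 →ₐ[E] L := MvPolynomial.aeval (tl E x)
    have hφ : Function.Injective φ := tl_ind hx
    have hφ' : Function.Injective (φ : R0 →+* L) := hφ
    have hle : D ≤ D ^ 2 ^ n := Nat.le_self_pow (by positivity) D
    have hle2 : D ≤ D ^ 2 := Nat.le_self_pow (by norm_num) D
    have hDf : IsUnit ((Nat.factorial D : ℕ) : k) := by
      obtain ⟨m, hm⟩ := Nat.factorial_dvd_factorial hle
      rw [hm, Nat.cast_mul] at hchar'
      exact isUnit_of_mul_isUnit_left hchar'
    -- the family, closed under derivatives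
    let G0 : B → R0[X] := fun b => MvPolynomial.finSuccEquiv E n (P b)
    have hG0 : ∀ b, G0 b ≠ 0 := by
      intro b h
      apply hP b
      exact (MvPolynomial.finSuccEquiv E n).injective (h.trans (map_zero _).symm)
    have hG0T : ∀ b, TD D (G0 b) := by
      intro b i hi
      exact (MvPolynomial.totalDegree_coeff_finSuccEquiv_add_le (P b) i hi).trans (hdeg b)
    let BB : Type := Bool ⊕ (B × Fin (D + 1))
    let G : BB → R0[X] := Sum.elim (fun e => if e then X else 1)
      (fun q => derivative^[min q.2.val (G0 q.1).natDegree] (G0 q.1))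
    have hGX : G (Sum.inl true) = X := rfl
    have hG1 : G (Sum.inl false) = 1 := rfl
    have hGb : ∀ b (j : Fin (D + 1)), G (Sum.inr (b, j)) =
      derivative^[min j.val (G0 b).natDegree] (G0 b) := fun _ _ => rfl
    have hGne : ∀ β, G β ≠ 0 := by
      rintro ((_ | _) | ⟨b, j⟩)
      · rw [hG1]; exact one_ne_zero
      · rw [hGX]; exact X_ne_zero
      · rw [hGb]
        exact iter_ne_zero' hDf (hG0 b) (hG0T b).natDegree _ (min_le_right _ _)
    have hGT : ∀ β, TD D (G β) := by
      rintro ((_ | _) | ⟨b, j⟩)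
      · rw [hG1]
        intro i hi
        rw [coeff_one] at hi ⊢
        split_ifs at hi ⊢ with h
        · rw [MvPolynomial.totalDegree_one]
          omega
        · exact absurd rfl hi
      · rw [hGX]
        intro i hi
        rw [coeff_X] at hi ⊢
        split_ifs at hi ⊢ with h
        · rw [MvPolynomial.totalDegree_one]
          omega
        · exact absurd rfl hi
      · rw [hGb]
        exact (hG0T b).iter _
    let F : BB → L[X] := fun β => (G β).map (φ : R0 →+* L)
    have hFn : ∀ β, (F β).natDegree = (G β).natDegree := fun β =>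
      natDegree_map_eq_of_injective hφ' _
    -- the family over the base
    let CC : Type := BB ⊕ (BB × BB × Fin (D + 1))
    let H0 : CC → R0 := Sum.elim (fun β => (G β).coeff 0)
      (fun q => (chi (G q.1) (G q.2.1)).coeff q.2.2)
    let H : CC → R0 := fun c => if H0 c ≠ 0 then H0 c else 1
    have hH1 : ∀ c, H0 c ≠ 0 → H c = H0 c := fun c hc => if_pos hc
    have hHne : ∀ c, H c ≠ 0 := by
      intro c
      by_cases h : H0 c ≠ 0
      · rw [hH1 c h]; exact h
      · have : H c = 1 := if_neg h
        rw [this]; exact one_ne_zero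
    have hHT : ∀ c, (H c).totalDegree ≤ D ^ 2 := by
      intro c
      by_cases h : H0 c ≠ 0
      · rw [hH1 c h]
        rcases c with β | ⟨β, β', j⟩
        · have h1 := hGT β 0 h
          change ((G β).coeff 0).totalDegree ≤ D ^ 2
          omega
        · exact totalDegree_chi (hGT β) (hGT β') _ h
      · have : H c = 1 := if_neg h
        rw [this, MvPolynomial.totalDegree_one]
        exact Nat.zero_le _
    obtain ⟨T, I, hT, hI, M, hFr, hMb, hMd⟩ := ih (D ^ 2) (Nat.one_le_pow _ _ hD) (by
      intro hn
      obtain ⟨m, rfl⟩ := Nat.exists_eq_succ_of_ne_zero hn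
      rw [Nat.succ_eq_add_one, Nat.add_sub_cancel, ← pow_mul, ← pow_succ']
      exact hchar') L ⟨_, exV_comap hne.some_mem⟩ (tl E x) (tl_ind hx) (tl_top x) CC H hHne hHT
    obtain ⟨T', I', hT', hI', M', hFr', hMb', -, hMd'⟩ := p1 hne (fun V hV => exV_comap hV) M hFr (x 0) (hd_tr hx) (hd_top htop) D
      hDf (Set.range fun c => φ (H c)) (by
        rintro _ ⟨c, rfl⟩
        exact hMb c) F (fun β => (Polynomial.map_ne_zero_iff hφ').2 (hGne β))
      (fun β => by rw [hFn]; exact (hGT β).natDegree)
      (by
        rintro ((_ | _) | ⟨b, j⟩) h1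
        · exfalso
          rw [hFn, hG1, natDegree_one] at h1
          omega
        · refine ⟨Sum.inl false, ?_⟩
          change (G (Sum.inl false)).map (φ : R0 →+* L) =
            derivative ((G (Sum.inl true)).map (φ : R0 →+* L))
          rw [hG1, hGX, Polynomial.map_one, Polynomial.map_X, derivative_X]
        · rw [hFn, hGb] at h1
          have h2 := natDegree_iterate_derivative (G0 b) (min j.val (G0 b).natDegree)
          have h3 : j.val < (G0 b).natDegree := by omega
          have h4 := (hG0T b).natDegree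
          refine ⟨Sum.inr (b, ⟨j.val + 1, by omega⟩), ?_⟩
          change (G (Sum.inr (b, ⟨j.val + 1, by omega⟩))).map (φ : R0 →+* L) =
            derivative ((G (Sum.inr (b, j))).map (φ : R0 →+* L))
          rw [hGb, hGb, derivative_map]
          simp only
          rw [min_eq_left h3.le, min_eq_left (show j.val + 1 ≤ (G0 b).natDegree by omega),
            Function.iterate_succ_apply'])
      ⟨Sum.inl true, by
        change (G (Sum.inl true)).map (φ : R0 →+* L) = X
        rw [hGX, Polynomial.map_X]⟩
      (by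
        intro β hβ
        rw [hFn] at hβ
        have h1 : (G β).coeff 0 ≠ 0 := by
          intro h2
          apply hGne β
          rw [eq_C_of_natDegree_eq_zero hβ, h2, map_zero]
        refine ⟨Sum.inl β, ?_⟩
        change φ (H (Sum.inl β)) = ((G β).map (φ : R0 →+* L)).coeff 0
        rw [coeff_map, hH1 (Sum.inl β) h1]
        rfl)
      (by
        intro β β' hβ
        rw [hFn] at hβ
        refine ⟨(chi (G β) (G β')).map (φ : R0 →+* L),
          (Polynomial.map_ne_zero_iff hφ').2 (chi_ne_zero _ _ (hGne β)), ?_, ?_, ?_⟩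
        · exact natDegree_map_le.trans ((natDegree_chi _ _).trans (hGT β).natDegree)
        · change (G β).map (φ : R0 →+* L) ∣ ((chi (G β) (G β')).map (φ : R0 →+* L)).comp
            ((G β').map (φ : R0 →+* L))
          rw [← Polynomial.map_comp]
          exact Polynomial.map_dvd _ (dvd_chi _ _ (by omega))
        · intro j hj
          rw [coeff_map] at hj ⊢
          have h1 : (chi (G β) (G β')).coeff j ≠ 0 := fun h => hj (by rw [h, map_zero])
          have h2 : j ≤ D := by
            have h3 := le_natDegree_of_ne_zero h1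
            have h4 := natDegree_chi (G β) (G β')
            have h5 := (hGT β).natDegree
            omega
          refine ⟨Sum.inr (β, β', ⟨j, by omega⟩), ?_⟩
          change φ (H (Sum.inr (β, β', ⟨j, _⟩))) = φ ((chi (G β) (G β')).coeff j)
          rw [hH1 (Sum.inr (β, β', ⟨j, by omega⟩)) h1]
          rfl)
    refine ⟨T', I', hT', hI', M', hFr', ?_, ?_⟩
    · intro b
      have h1 := hMb' (Sum.inr (b, ⟨0, by omega⟩))
      have h2 : F (Sum.inr (b, ⟨0, by omega⟩)) = (G0 b).map (φ : R0 →+* L) := by
        change (G (Sum.inr (b, ⟨0, by omega⟩))).map (φ : R0 →+* L) = _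
        rw [hGb]
        simp only
        rw [Nat.zero_min, Function.iterate_zero_apply]
      rw [h2] at h1
      rw [← aeval_fse x (P b)]
      exact h1
    · intro t'
      obtain ⟨hz, t, ht⟩ := hMd' t'
      obtain ⟨hd1, hd2⟩ := hMd t
      have hm : ∀ a : L, a ∈ M.A t → algebraMap L K a ∈ M'.A t' := fun a ha => ht ⟨a, ha, rfl⟩
      refine ⟨?_, ?_⟩
      · intro e
        obtain ⟨a, b, ha, hb, hb0, he⟩ := hd1 e
        refine ⟨a, b, ?_, ?_, hb0, he⟩
        · exact hm _ ha
        · exact hm _ hb
      · intro i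
        refine Fin.cases hz (fun i => ?_) i
        rcases hd2 i with h | h
        · exact Or.inl (hm _ h)
        · right
          have h1 := hm _ h
          rw [map_inv₀] at h1
          exact h1

end main

end Pool.Agent.N98.RV
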